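import Pool.Agent.Spo.Leaf

/-!
# Two self-polar bodies whose maps commute on a dense set (MP_15a957_gt)
-/

set_option autoImplicit false

open Set Filter Topology

namespace Pool.Agent.Spo

section

variable {n : ℕ}

/-- A point where the two maps agree has a common half difference. -/
theorem agree_common {X₁ X₂ : Set (V n)} (h1 : SelfPolar X₁) (h2 : SelfPolar X₂) {z u : V n}
    (s1 : Step X₁ z u) (s2 : Step X₂ z u) : ∃ x ∈ X₁ ∩ X₂, ∃ y ∈ X₁, om x y = 1 ∧ x + y = z := by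
  obtain ⟨x, hx, y, hy, h, e1, e2⟩ := s1
  obtain ⟨a, ha, b, hb, hab, e3, e4⟩ := s2
  have hxa : x = a := by
    have e5 : (x + y) - (y - x) = (a + b) - (b - a) := by rw [e1, e2, e3, e4]
    have e6 : (x + y) - (y - x) = (2 : ℝ) • x := by rw [two_smul]; abel
    have e7 : (a + b) - (b - a) = (2 : ℝ) • a := by rw [two_smul]; abel
    rw [e6, e7] at e5
    exact smul_right_injective _ (two_ne_zero) e5
  exact ⟨x, ⟨(front_mem h1 hx).1, hxa ▸ (front_mem h2 ha).1⟩, y, hy, h, e1⟩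

theorem part_dense {X₁ X₂ : Set (V n)} (h1 : SelfPolar X₁) (h2 : SelfPolar X₂) (c1 : C1 X₁)
    (c2 : C1 X₂) (hd : YSet X₁ ⊆ closure {z | ∃ u v s, Step X₁ z u ∧ Step X₂ u s ∧
      Step X₂ z v ∧ Step X₁ v s}) : X₁ = X₂ := by
  refine eq_of_front h1 h2 fun x hx => ?_
  obtain ⟨y, hy, hxy⟩ := partner h1 hx
  have hxX := (front_mem h1 hx).1
  obtain ⟨K, hK⟩ : ∃ K : Set (V n × V n), K = ((X₁ ∩ X₂) ×ˢ X₁) ∩ {p | om p.1 p.2 = 1} := ⟨_, rfl⟩
  have hKc : IsCompact K := by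
    rw [hK]
    refine ((h1.compact.inter_right h2.compact.isClosed).prod h1.compact).inter_right ?_
    exact isClosed_eq om_continuous continuous_const
  have hIc : IsCompact ((fun p : V n × V n => p.1 + p.2) '' K) :=
    hKc.image (continuous_fst.add continuous_snd)
  have hsub : {z | ∃ u v s, Step X₁ z u ∧ Step X₂ u s ∧
      Step X₂ z v ∧ Step X₁ v s} ⊆ (fun p : V n × V n => p.1 + p.2) '' K := by
    rintro z ⟨u, v, s, s1, s4, s2, s3⟩
    have huv := local_comm h1 h2 c2 s1 s4 s2 s3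
    subst huv
    obtain ⟨p, hp, q, hq, hpq, e⟩ := agree_common h1 h2 s1 s2
    refine ⟨(p, q), ?_, e⟩
    rw [hK]
    exact ⟨⟨hp, hq⟩, hpq⟩
  have hz : x + y ∈ (fun p : V n × V n => p.1 + p.2) '' K :=
    (closure_minimal hsub hIc.isClosed) (hd ⟨x, hx, y, hy, hxy, rfl⟩)
  obtain ⟨⟨p, q⟩, hpq, e⟩ := hz
  rw [hK] at hpq
  obtain ⟨⟨hp, hq⟩, h⟩ := hpq
  have hp' : p ∈ X₁ ∩ X₂ := hp
  have hxp : x = p := dec_unique h1 c1 hxX hy hxy hp'.1 hq h e.symm
  rw [hxp]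
  exact hp'.2

end

end Pool.Agent.Spo
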