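import Pool.Agent.Spo.Defs

/-!
# Curves carried by the outer billiard map of a self-polar body: definitions (MP_15a957_gt)
-/

set_option autoImplicit false

namespace Pool.Agent.Spo

/-- A `C^1` curve with positive action form: `ω(γ,γ') > 0`. -/
def Positive {n : ℕ} (γ : ℝ → V n) : Prop := ContDiff ℝ 1 γ ∧ ∀ s, 0 < om (γ s) (deriv γ s)

/-- The outer billiard map of `X` takes the curve `γ` into itself, by the continuous increasing
change of parameter `τ`. -/
def CarriesBy {n : ℕ} (X : Set (V n)) (γ : ℝ → V n) (τ : ℝ → ℝ) : Prop :=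
  Continuous τ ∧ Monotone τ ∧ ∀ s, Step X (γ s) (γ (τ s))

end Pool.Agent.Spo
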