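import Pool.Agent.Spo.Lem
import Pool.Agent.Spo.CurveDefs

/-!
# Curves carried by the outer billiard map of a self-polar body (MP_15a957_gt)
-/

set_option autoImplicit false

open Set Filter Topology

namespace Pool.Agent.Spo

section

variable {n : ℕ}

theorem om_abs_le (u v : V n) : |om u v| ≤ 2 * n * (‖u‖ * ‖v‖) := by
  unfold om
  refine (Finset.abs_sum_le_sum_abs _ _).trans ?_
  have h : ∀ i ∈ (Finset.univ : Finset (Fin n)),
      |u (Sum.inl i) * v (Sum.inr i) - u (Sum.inr i) * v (Sum.inl i)| ≤ 2 * (‖u‖ * ‖v‖) := by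
    intro i _
    refine (abs_sub _ _).trans ?_
    rw [abs_mul, abs_mul]
    have a1 : |u (Sum.inl i)| ≤ ‖u‖ := norm_le_pi_norm u _
    have a2 : |u (Sum.inr i)| ≤ ‖u‖ := norm_le_pi_norm u _
    have b1 : |v (Sum.inl i)| ≤ ‖v‖ := norm_le_pi_norm v _
    have b2 : |v (Sum.inr i)| ≤ ‖v‖ := norm_le_pi_norm v _
    have c1 := mul_le_mul a1 b2 (abs_nonneg _) (norm_nonneg _)
    have c2 := mul_le_mul a2 b1 (abs_nonneg _) (norm_nonneg _)
    linarith
  refine (Finset.sum_le_sum h).trans ?_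
  rw [Finset.sum_const, Finset.card_univ, Fintype.card_fin, nsmul_eq_mul]
  apply le_of_eq
  ring

theorem om_hasDeriv (p : V n) {γ : ℝ → V n} {γ' : V n} {v : ℝ} (h : HasDerivAt γ γ' v) :
    HasDerivAt (fun t => om p (γ t)) (om p γ') v := by
  unfold om
  have h1 := hasDerivAt_pi.1 h
  refine HasDerivAt.fun_sum fun i _ => ?_
  exact ((h1 (Sum.inr i)).const_mul _).sub ((h1 (Sum.inl i)).const_mul _)

/-- The action along the curve. -/
noncomputable def act (γ : ℝ → V n) (s : ℝ) : ℝ := ∫ t in (0 : ℝ)..s, om (γ t) (deriv γ t)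

theorem act_cont {γ : ℝ → V n} (hγ : ContDiff ℝ 1 γ) :
    Continuous fun t => om (γ t) (deriv γ t) :=
  om_continuous.comp (hγ.continuous.prodMk (hγ.continuous_deriv le_rfl))

theorem act_hasDeriv {γ : ℝ → V n} (hγ : ContDiff ℝ 1 γ) (s : ℝ) :
    HasDerivAt (act γ) (om (γ s) (deriv γ s)) s :=
  intervalIntegral.integral_hasDerivAt_right ((act_cont hγ).intervalIntegrable _ _)
    ((act_cont hγ).stronglyMeasurableAtFilter _ _) (act_cont hγ).continuousAt

theorem act_strict {γ : ℝ → V n} (hγ : Positive γ) : StrictMono (act γ) := by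
  refine strictMono_of_deriv_pos fun s => ?_
  rw [(act_hasDeriv hγ.1 s).deriv]
  exact hγ.2 s

/-- The chord form against the action, on an interval. -/
theorem chord_act {γ : ℝ → V n} (hγ : ContDiff ℝ 1 γ) {a b M : ℝ} (hM0 : 0 ≤ M)
    (hM : ∀ t ∈ Icc a b, ‖deriv γ t‖ ≤ M) {u v : ℝ} (hu : u ∈ Icc a b) (hv : v ∈ Icc a b) :
    |om (γ u) (γ v) - (act γ v - act γ u)| ≤ 2 * n * M ^ 2 * (v - u) ^ 2 := by
  have hd : ∀ t, HasDerivAt γ (deriv γ t) t := fun t =>
    (hγ.differentiable one_ne_zero t).hasDerivAt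
  have hlip : ∀ t ∈ Icc a b, ‖γ u - γ t‖ ≤ M * |u - t| := by
    intro t ht
    have := (convex_Icc a b).norm_image_sub_le_of_norm_hasDerivWithin_le
      (f := γ) (f' := deriv γ) (fun x _ => (hd x).hasDerivWithinAt) hM ht hu
    simpa [Real.norm_eq_abs] using this
  have hE : ∀ t, HasDerivAt (fun t => om (γ u) (γ t) - (act γ t - act γ u))
      (om (γ u) (deriv γ t) - om (γ t) (deriv γ t)) t := fun t =>
    (om_hasDeriv (γ u) (hd t)).sub ((act_hasDeriv hγ t).sub_const _)
  have hsub : ∀ t ∈ uIcc u v, t ∈ Icc a b := fun t ht => by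
    have h := uIcc_subset_Icc hu hv
    exact h ht
  have hbound : ∀ t ∈ uIcc u v, ‖om (γ u) (deriv γ t) - om (γ t) (deriv γ t)‖ ≤
      2 * n * M ^ 2 * |v - u| := by
    intro t ht
    rw [← om_sub_left, Real.norm_eq_abs]
    refine (om_abs_le _ _).trans ?_
    have h1 : |u - t| ≤ |v - u| := by
      rw [abs_sub_comm u t]
      exact abs_sub_left_of_mem_uIcc ht
    have h2 : ‖γ u - γ t‖ ≤ M * |v - u| :=
      (hlip t (hsub t ht)).trans (mul_le_mul_of_nonneg_left h1 hM0)
    have h3 := hM t (hsub t ht)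
    have h4 : ‖γ u - γ t‖ * ‖deriv γ t‖ ≤ (M * |v - u|) * M :=
      mul_le_mul h2 h3 (norm_nonneg _) (by positivity)
    calc 2 * (n : ℝ) * (‖γ u - γ t‖ * ‖deriv γ t‖) ≤ 2 * n * ((M * |v - u|) * M) := by gcongr
      _ = 2 * n * M ^ 2 * |v - u| := by ring
  have key := (convex_uIcc u v).norm_image_sub_le_of_norm_hasDerivWithin_le
    (fun x _ => (hE x).hasDerivWithinAt) hbound left_mem_uIcc right_mem_uIcc
  simp only [om_self, sub_self, sub_zero, Real.norm_eq_abs] at key
  refine key.trans (le_of_eq ?_)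
  rw [← sq_abs (v - u)]
  ring

/-- Two points and their images. -/
theorem step_chord {X : Set (V n)} (hX : SelfPolar X) {z z' w w' : V n} (h : Step X z z')
    (h' : Step X w w') : |om z w - om z' w'| ≤ n * (‖w - z‖ + ‖w' - z'‖) ^ 2 := by
  obtain ⟨x, hx, y, hy, h1, rfl, rfl⟩ := h
  obtain ⟨p, hp, q, hq, h2, rfl, rfl⟩ := h'
  have hxX := (front_mem hX hx).1
  have hpX := (front_mem hX hp).1
  have g1 := le_one hX hxX hq
  have g2 := le_one hX hpX hy
  have e1 : om (x + y) (p + q) - om (y - x) (q - p) = 2 * (om x q - om p y) := by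
    rw [om_add_left, om_add_right, om_add_right, om_sub_left, om_sub_right, om_sub_right,
      om_comm y p]
    ring
  have e2 : om (p - x) (q - y) = (1 - om x q) + (1 - om p y) := by
    rw [om_sub_left, om_sub_right, om_sub_right, h1, h2]
    ring
  have h3 : |om (x + y) (p + q) - om (y - x) (q - p)| ≤ 2 * om (p - x) (q - y) := by
    rw [e1, e2, abs_le]
    constructor <;> linarith
  obtain ⟨S, hS⟩ : ∃ S, S = ‖p + q - (x + y)‖ + ‖q - p - (y - x)‖ := ⟨_, rfl⟩
  have n1 : ‖p - x‖ ≤ S / 2 := by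
    have e3 : p - x = (2 : ℝ)⁻¹ • ((p + q - (x + y)) - (q - p - (y - x))) := by
      ext i
      simp only [Pi.smul_apply, Pi.sub_apply, Pi.add_apply, smul_eq_mul]
      ring
    rw [e3, norm_smul, Real.norm_of_nonneg (by positivity)]
    have := norm_sub_le (p + q - (x + y)) (q - p - (y - x))
    rw [hS]; linarith
  have n2 : ‖q - y‖ ≤ S / 2 := by
    have e3 : q - y = (2 : ℝ)⁻¹ • ((p + q - (x + y)) + (q - p - (y - x))) := by
      ext i
      simp only [Pi.smul_apply, Pi.sub_apply, Pi.add_apply, smul_eq_mul]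
      ring
    rw [e3, norm_smul, Real.norm_of_nonneg (by positivity)]
    have := norm_add_le (p + q - (x + y)) (q - p - (y - x))
    rw [hS]; linarith
  have hS0 : 0 ≤ S := by rw [hS]; positivity
  have h4 : ‖p - x‖ * ‖q - y‖ ≤ (S / 2) * (S / 2) :=
    mul_le_mul n1 n2 (norm_nonneg _) (by positivity)
  have h5 := (le_abs_self _).trans (om_abs_le (p - x) (q - y))
  rw [← hS]
  calc |om (x + y) (p + q) - om (y - x) (q - p)| ≤ 2 * om (p - x) (q - y) := h3
    _ ≤ 2 * (2 * n * (‖p - x‖ * ‖q - y‖)) := by linarith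
    _ ≤ 2 * (2 * n * ((S / 2) * (S / 2))) := by gcongr
    _ = n * S ^ 2 := by ring

/-- A function with `|F v - F u| ≤ C (v - u)^2` near every point is constant. -/
theorem const_of_sq {G : ℝ → ℝ} (h : ∀ y, ∃ C δ : ℝ, 0 < δ ∧ ∀ y', |y' - y| < δ →
    |G y' - G y| ≤ C * (y' - y) ^ 2) (a b : ℝ) : G a = G b := by
  have hd : ∀ y, HasDerivAt G 0 y := by
    intro y
    obtain ⟨C, δ, hδ, hb⟩ := h y
    rw [hasDerivAt_iff_isLittleO]
    have h1 : (fun y' => G y' - G y - (y' - y) • (0 : ℝ)) =O[𝓝 y] fun y' => (y' - y) ^ 2 := by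
      refine Asymptotics.IsBigO.of_bound C ?_
      have : Metric.ball y δ ∈ 𝓝 y := Metric.ball_mem_nhds y hδ
      filter_upwards [this] with y' hy'
      rw [smul_zero, sub_zero, Real.norm_eq_abs, Real.norm_eq_abs, abs_of_nonneg (sq_nonneg (y' - y))]
      exact hb y' (by simpa [Real.dist_eq] using hy')
    refine h1.trans_isLittleO ?_
    have h2 : (fun y' : ℝ => (y' - y) ^ 2) = fun y' => (y' - y) * (y' - y) := by
      funext y'; ring
    rw [h2]
    have h3 : (fun y' : ℝ => y' - y) =o[𝓝 y] fun _ => (1 : ℝ) := by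
      rw [Asymptotics.isLittleO_one_iff]
      have : Tendsto (fun y' : ℝ => y' - y) (𝓝 y) (𝓝 (y - y)) :=
        (continuous_id.sub continuous_const).tendsto y
      rwa [sub_self] at this
    simpa using h3.mul_isBigO (Asymptotics.isBigO_refl (fun y' : ℝ => y' - y) (𝓝 y))
  exact is_const_of_deriv_eq_zero (fun y => (hd y).differentiableAt) (fun y => (hd y).deriv) a b

/-- The outer billiard map moves all points of a carried curve by the same action. -/
theorem act_const {X : Set (V n)} (hX : SelfPolar X) {γ : ℝ → V n} (hγ : ContDiff ℝ 1 γ)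
    {τ : ℝ → ℝ} (hτ : CarriesBy X γ τ) (a b : ℝ) :
    act γ (τ a) - act γ a = act γ (τ b) - act γ b := by
  obtain ⟨hc, hm, hs⟩ := hτ
  -- the parameter `p = s + τ s`
  have hp : StrictMono fun s => s + τ s := fun s t h => by
    have := hm h.le
    show s + τ s < t + τ t
    linarith
  have hpc : Continuous fun s => s + τ s := continuous_id.add hc
  have hpt : Tendsto (fun s => s + τ s) atTop atTop := by
    refine tendsto_atTop_mono' _ ?_ (tendsto_atTop_add_const_right _ (τ 0) tendsto_id)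
    filter_upwards [eventually_ge_atTop (0 : ℝ)] with s h
    have := hm h
    show s + τ 0 ≤ s + τ s
    linarith
  have hpb : Tendsto (fun s => s + τ s) atBot atBot := by
    refine tendsto_atBot_mono' _ ?_ (tendsto_atBot_add_const_right _ (τ 0) tendsto_id)
    filter_upwards [eventually_le_atBot (0 : ℝ)] with s h
    have := hm h
    show s + τ s ≤ s + τ 0
    linarith
  have hsurj : Function.Surjective fun s => s + τ s := hpc.surjective hpt hpb
  let e : ℝ ≃o ℝ := hp.orderIsoOfSurjective _ hsurj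
  have he : ∀ s, e s = s + τ s := fun s => rfl
  have hG := const_of_sq (G := fun y => act γ (τ (e.symm y)) - act γ (e.symm y)) (by
    intro y
    obtain ⟨s0, rfl⟩ : ∃ s, e s = y := e.surjective y
    -- a compact interval with all points
    obtain ⟨a, ha⟩ : ∃ a, a = min (s0 - 1) (τ (s0 - 1)) := ⟨_, rfl⟩
    obtain ⟨b, hb⟩ : ∃ b, b = max (s0 + 1) (τ (s0 + 1)) := ⟨_, rfl⟩
    obtain ⟨M0, hM0⟩ := (isCompact_Icc (a := a) (b := b)).exists_bound_of_continuousOn
      (hγ.continuous_deriv le_rfl).continuousOn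
    obtain ⟨M, hMd⟩ : ∃ M, M = max M0 0 := ⟨_, rfl⟩
    have hM1 : 0 ≤ M := by rw [hMd]; exact le_max_right _ _
    have hM : ∀ t ∈ Icc a b, ‖deriv γ t‖ ≤ M := fun t ht => by
      rw [hMd]; exact (hM0 t ht).trans (le_max_left _ _)
    have hlip : ∀ u ∈ Icc a b, ∀ v ∈ Icc a b, ‖γ v - γ u‖ ≤ M * |v - u| := by
      intro u hu v hv
      have := (convex_Icc a b).norm_image_sub_le_of_norm_hasDerivWithin_le
        (f := γ) (f' := deriv γ)
        (fun x _ => (hγ.differentiable one_ne_zero x).hasDerivAt.hasDerivWithinAt) hM hu hv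
      simpa [Real.norm_eq_abs] using this
    refine ⟨2 * n * M ^ 2 * 2 + n * M ^ 2, min (e (s0 + 1) - e s0) (e s0 - e (s0 - 1)), ?_, ?_⟩
    · refine lt_min (sub_pos.2 (e.strictMono (by linarith))) (sub_pos.2 (e.strictMono (by linarith)))
    · intro y' hy'
      obtain ⟨s, rfl⟩ : ∃ s, e s = y' := e.surjective y'
      rw [OrderIso.symm_apply_apply, OrderIso.symm_apply_apply]
      rw [lt_min_iff, abs_lt, abs_lt] at hy'
      have hs1 : s < s0 + 1 := e.lt_iff_lt.1 (by linarith [hy'.1.2])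
      have hs2 : s0 - 1 < s := e.lt_iff_lt.1 (by linarith [hy'.2.1])
      have t1 := hm hs1.le
      have t2 := hm hs2.le
      have t3 := hm (show s0 ≤ s0 + 1 by linarith)
      have t4 := hm (show s0 - 1 ≤ s0 by linarith)
      have ma1 : a ≤ s0 - 1 := by rw [ha]; exact min_le_left _ _
      have ma2 : a ≤ τ (s0 - 1) := by rw [ha]; exact min_le_right _ _
      have mb1 : s0 + 1 ≤ b := by rw [hb]; exact le_max_left _ _
      have mb2 : τ (s0 + 1) ≤ b := by rw [hb]; exact le_max_right _ _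
      have i1 : s0 ∈ Icc a b := ⟨by linarith, by linarith⟩
      have i2 : s ∈ Icc a b := ⟨by linarith, by linarith⟩
      have i3 : τ s0 ∈ Icc a b := ⟨by linarith, by linarith⟩
      have i4 : τ s ∈ Icc a b := ⟨by linarith, by linarith⟩
      have k1 := chord_act hγ hM1 hM i1 i2
      have k2 := chord_act hγ hM1 hM i3 i4
      have k3 := step_chord hX (hs s0) (hs s)
      have l1 := hlip _ i1 _ i2
      have l2 := hlip _ i3 _ i4
      have hsame : |s - s0| + |τ s - τ s0| = |e s - e s0| := by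
        rw [he, he]
        rcases le_total s0 s with h | h
        · have := hm h
          rw [abs_of_nonneg (by linarith), abs_of_nonneg (by linarith), abs_of_nonneg (by linarith)]
          ring
        · have := hm h
          rw [abs_of_nonpos (by linarith), abs_of_nonpos (by linarith), abs_of_nonpos (by linarith)]
          ring
      obtain ⟨P, hP⟩ : ∃ P, P = |e s - e s0| := ⟨_, rfl⟩
      have hP0 : 0 ≤ P := by rw [hP]; exact abs_nonneg _
      rw [← hP] at hsame
      have q1 : (s - s0) ^ 2 ≤ P ^ 2 := by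
        rw [← sq_abs]
        exact pow_le_pow_left₀ (abs_nonneg _) (by linarith [abs_nonneg (τ s - τ s0)]) 2
      have q2 : (τ s - τ s0) ^ 2 ≤ P ^ 2 := by
        rw [← sq_abs]
        exact pow_le_pow_left₀ (abs_nonneg _) (by linarith [abs_nonneg (s - s0)]) 2
      have q3 : (‖γ s - γ s0‖ + ‖γ (τ s) - γ (τ s0)‖) ^ 2 ≤ (M * P) ^ 2 := by
        refine pow_le_pow_left₀ (by positivity) ?_ 2
        calc ‖γ s - γ s0‖ + ‖γ (τ s) - γ (τ s0)‖ ≤ M * |s - s0| + M * |τ s - τ s0| :=
              add_le_add l1 l2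
          _ = M * P := by rw [← hsame]; ring
      have hn : (0 : ℝ) ≤ n := Nat.cast_nonneg n
      have r1 : 2 * (n : ℝ) * M ^ 2 * (s - s0) ^ 2 ≤ 2 * n * M ^ 2 * P ^ 2 :=
        mul_le_mul_of_nonneg_left q1 (by positivity)
      have r2 : 2 * (n : ℝ) * M ^ 2 * (τ s - τ s0) ^ 2 ≤ 2 * n * M ^ 2 * P ^ 2 :=
        mul_le_mul_of_nonneg_left q2 (by positivity)
      have r3 : (n : ℝ) * (‖γ s - γ s0‖ + ‖γ (τ s) - γ (τ s0)‖) ^ 2 ≤ n * (M * P) ^ 2 :=
        mul_le_mul_of_nonneg_left q3 hn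
      have hPsq : (e s - e s0) ^ 2 = P ^ 2 := by rw [hP, sq_abs]
      rw [hPsq]
      rw [abs_le] at k1 k2 k3 ⊢
      constructor
      · nlinarith [k1.1, k1.2, k2.1, k2.2, k3.1, k3.2]
      · nlinarith [k1.1, k1.2, k2.1, k2.2, k3.1, k3.2]) (e a) (e b)
  simpa using hG

end

end Pool.Agent.Spo
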