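import Mathlib

/-!
# Symplectically self-polar convex bodies (MP_15a957_gt): definitions
-/

set_option autoImplicit false

open Set Filter Topology

namespace Pool.Agent.Spo

/-- `ℝ^(2n)`: the coordinate `u_i` is `u (inl i)` and `u_(n+i)` is `u (inr i)`. -/
abbrev V (n : ℕ) : Type := Fin n ⊕ Fin n → ℝ

/-- The symplectic form `ω(u,v) = ∑ (u_i v_(n+i) - u_(n+i) v_i)`. -/
def om {n : ℕ} (u v : V n) : ℝ :=
  ∑ i, (u (Sum.inl i) * v (Sum.inr i) - u (Sum.inr i) * v (Sum.inl i))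

/-- A symplectically self-polar convex body. -/
structure SelfPolar {n : ℕ} (X : Set (V n)) : Prop where
  convex : Convex ℝ X
  compact : IsCompact X
  solid : (interior X).Nonempty
  polar : X = {y | ∀ x ∈ X, om x y ≤ 1}

/-- `C^1` boundary: every boundary point `x` has a unique support hyperplane, that is, a unique
`y ∈ X` with `ω(x,y) = 1`. -/
def C1 {n : ℕ} (X : Set (V n)) : Prop :=
  ∀ x ∈ frontier X, ∀ y ∈ X, ∀ y' ∈ X, om x y = 1 → om x y' = 1 → y = y'

/-- `Y(X)`: the points `x + y` with `x ∈ ∂X`, `y ∈ X`, `ω(x,y) = 1` (`y = f(x)`). -/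
def YSet {n : ℕ} (X : Set (V n)) : Set (V n) :=
  {z | ∃ x ∈ frontier X, ∃ y ∈ X, om x y = 1 ∧ x + y = z}

/-- `z'` is the image of `z = x + f(x)` under the outer billiard map: `z' = f(x) - x`. -/
def Step {n : ℕ} (X : Set (V n)) (z z' : V n) : Prop :=
  ∃ x ∈ frontier X, ∃ y ∈ X, om x y = 1 ∧ x + y = z ∧ y - x = z'

/-- The Euclidean unit ball. -/
def ball (n : ℕ) : Set (V n) := {x | ∑ j, x j ^ 2 ≤ 1}

/-- The square of the norm with unit ball `A '' ball n`. -/
def sq {n : ℕ} (A : V n ≃ₗ[ℝ] V n) (x : V n) : ℝ := ∑ j, (A.symm x j) ^ 2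

end Pool.Agent.Spo
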