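import Pool.Agent.Spo.Curve

/-!
# A self-polar body whose set `Y` lies on an ellipsoid (MP_15a957_gt)
-/

set_option autoImplicit false

open Set Filter Topology

namespace Pool.Agent.Spo

section

variable {n : ℕ}

theorem sq_zero_iff {A : V n ≃ₗ[ℝ] V n} {u : V n} (hu : sq A u = 0) : u = 0 := by
  unfold sq at hu
  rw [Finset.sum_eq_zero_iff_of_nonneg fun _ _ => sq_nonneg _] at hu
  have h1 : A.symm u = 0 := by
    funext j
    exact pow_eq_zero_iff (two_ne_zero) |>.1 (hu j (Finset.mem_univ j))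
  exact (LinearEquiv.map_eq_zero_iff A.symm).1 h1

theorem bil_comm (A : V n ≃ₗ[ℝ] V n) (x y : V n) : bil A x y = bil A y x := by
  unfold bil
  exact Finset.sum_congr rfl fun j _ => mul_comm _ _

theorem bil_self (A : V n ≃ₗ[ℝ] V n) (x : V n) : bil A x x = sq A x := by
  unfold bil sq
  exact Finset.sum_congr rfl fun j _ => (pow_two _).symm

theorem bil_add_left (A : V n ≃ₗ[ℝ] V n) (x x' y : V n) :
    bil A (x + x') y = bil A x y + bil A x' y := by
  unfold bil
  rw [← Finset.sum_add_distrib]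
  refine Finset.sum_congr rfl fun j _ => ?_
  rw [map_add, Pi.add_apply]
  ring

theorem bil_smul_left (A : V n ≃ₗ[ℝ] V n) (t : ℝ) (x y : V n) :
    bil A (t • x) y = t * bil A x y := by
  unfold bil
  rw [Finset.mul_sum]
  refine Finset.sum_congr rfl fun j _ => ?_
  rw [map_smul, Pi.smul_apply, smul_eq_mul]
  ring

theorem bil_add_right (A : V n ≃ₗ[ℝ] V n) (x y y' : V n) :
    bil A x (y + y') = bil A x y + bil A x y' := by
  rw [bil_comm, bil_add_left, bil_comm A y, bil_comm A y']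

theorem bil_smul_right (A : V n ≃ₗ[ℝ] V n) (t : ℝ) (x y : V n) :
    bil A x (t • y) = t * bil A x y := by
  rw [bil_comm, bil_smul_left, bil_comm A y]

/-- The form `ω` represents the functional `bil A · x`. -/
theorem exists_rep (A : V n ≃ₗ[ℝ] V n) (x : V n) : ∃ k : V n, ∀ u, om u k = bil A u x := by
  let L : V n →ₗ[ℝ] ℝ :=
    { toFun := fun u => bil A u x
      map_add' := fun u v => bil_add_left A u v x
      map_smul' := fun t u => bil_smul_left A t u x }
  refine ⟨fun j => Sum.elim (fun i => -L (Pi.single (Sum.inr i) 1))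
    (fun i => L (Pi.single (Sum.inl i) 1)) j, fun u => ?_⟩
  have h1 : bil A u x = L u := rfl
  have h2 : L u = ∑ j, u j * L (Pi.single j 1) := by
    conv_lhs => rw [pi_eq_sum_univ' u]
    rw [map_sum]
    refine Finset.sum_congr rfl fun j _ => ?_
    rw [map_smul, smul_eq_mul]
  rw [h1, h2, Fintype.sum_sum_type, ← Finset.sum_add_distrib]
  unfold om
  refine Finset.sum_congr rfl fun i _ => ?_
  simp only [Sum.elim_inl, Sum.elim_inr]
  ring

/-- Pairs of boundary points when `Y` lies on the ellipsoid `sq A = 2`. -/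
theorem pair_ell {A : V n ≃ₗ[ℝ] V n} {X : Set (V n)} (hX : SelfPolar X)
    (hA : ∀ z ∈ YSet X, sq A z = 2) {x y : V n} (hx : x ∈ X) (hy : y ∈ X) (h : om x y = 1) :
    bil A x y = 0 ∧ sq A x + sq A y = 2 := by
  have hs : Step X (x + y) (y - x) := ⟨x, front_left hX hx hy h, y, hy, h, rfl, rfl⟩
  have a1 := hA _ (step_mem hs)
  have a2 := hA _ (step_mem (step_next hX hs))
  have a3 := sq_par A x y
  have a4 := sq_add_smul A x y 1
  rw [one_smul] at a4
  constructor <;> linarith

theorem exists_max {X : Set (V n)} (hX : SelfPolar X) (u : V n) :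
    ∃ w ∈ X, ∀ v ∈ X, om u v ≤ om u w := by
  have hc : Continuous fun x : V n => om u x :=
    om_continuous.comp (continuous_const.prodMk continuous_id)
  obtain ⟨w, hw, hmax⟩ := hX.compact.exists_isMaxOn (hX.solid.mono interior_subset)
    hc.continuousOn
  exact ⟨w, hw, fun v hv => hmax hv⟩

/-- A positive maximum, scaled to a pair. -/
theorem scaled_pair {X : Set (V n)} (hX : SelfPolar X) {u w : V n}
    (hmax : ∀ v ∈ X, om u v ≤ om u w) (hpos : 0 < om u w) : (om u w)⁻¹ • u ∈ X := by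
  refine mem_of hX fun v hv => ?_
  rw [om_smul_right]
  have h1 := hmax (-v) (neg_mem' hX hv)
  rw [om_neg_right, ← om_comm] at h1
  calc (om u w)⁻¹ * om v u ≤ (om u w)⁻¹ * om u w := by gcongr
    _ = 1 := inv_mul_cancel₀ hpos.ne'

/-- Frontier points are not too near to `0`. -/
theorem ell_inside {A : V n ≃ₗ[ℝ] V n} {X : Set (V n)} (hX : SelfPolar X)
    (hA : ∀ z ∈ YSet X, sq A z = 2) {m : ℝ} (hm : ∀ u ∈ X, sq A u ≤ m) (hm2 : 0 < 2 - m)
    {u : V n} (hu : sq A u ≤ 2 - m) : u ∈ X := by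
  obtain ⟨w, hw, hmax⟩ := exists_max hX u
  rcases le_or_gt (om u w) 1 with h | h
  · refine mem_of hX fun v hv => ?_
    have h1 := hmax (-v) (neg_mem' hX hv)
    rw [om_neg_right, ← om_comm] at h1
    exact h1.trans h
  · exfalso
    have h0 : 0 < om u w := by linarith
    have h1 := scaled_pair hX hmax h0
    have h2 : om ((om u w)⁻¹ • u) w = 1 := by
      rw [om_smul_left, inv_mul_cancel₀ h0.ne']
    have h3 := (pair_ell hX hA h1 hw h2).2
    have h4 := hm w hw
    rw [sq_smul] at h3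
    have h5 : ((om u w)⁻¹) ^ 2 < 1 := by
      have : (om u w)⁻¹ < 1 := inv_lt_one_of_one_lt₀ h
      have h6 : 0 ≤ (om u w)⁻¹ := by positivity
      nlinarith
    have h7 := sq_nonneg' A u
    nlinarith

/-- A functional below `1` on the ellipsoid `sq A ≤ ρ` and equal to `1` at `y`. -/
theorem touch {A : V n ≃ₗ[ℝ] V n} {k y : V n} {ρ : ℝ} (hρ : 0 < ρ) (hy : sq A y = ρ)
    (h : ∀ u, sq A u ≤ ρ → om u k ≤ 1) (h1 : om y k = 1) (v : V n) :
    bil A v y = ρ * om v k := by
  -- the homogeneous form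
  have hom : ∀ u, ρ * om u k ^ 2 ≤ sq A u := by
    intro u
    rcases (sq_nonneg' A u).eq_or_lt with h0 | h0
    · rw [sq_zero_iff h0.symm]
      have := om_smul_left 0 (0 : V n) k
      rw [zero_smul, zero_mul] at this
      rw [this]
      have := sq_nonneg' A (0 : V n)
      simpa using this
    · have hs : 0 < √(ρ / sq A u) := Real.sqrt_pos.2 (by positivity)
      have e1 : √(ρ / sq A u) ^ 2 = ρ / sq A u := Real.sq_sqrt (by positivity)
      have k1 := h (√(ρ / sq A u) • u) (by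
        rw [sq_smul, e1, div_mul_cancel₀ _ h0.ne'])
      have k2 := h (-(√(ρ / sq A u)) • u) (by
        rw [sq_smul, neg_sq, e1, div_mul_cancel₀ _ h0.ne'])
      rw [om_smul_left] at k1 k2
      have k3 : (√(ρ / sq A u) * om u k) ^ 2 ≤ 1 := by
        rw [sq_le_one_iff_abs_le_one, abs_le]
        constructor <;> linarith
      rw [mul_pow, e1, div_mul_eq_mul_div, div_le_one h0] at k3
      exact k3
  obtain ⟨v', hv'⟩ : ∃ v', v' = v + (-(bil A v y / ρ)) • y := ⟨_, rfl⟩
  have hb : bil A y v' = 0 := by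
    rw [hv', bil_add_right, bil_smul_right, bil_self, hy, bil_comm A y v]
    field_simp
    ring
  have key : ∀ t : ℝ, ρ * (1 + t * om v' k) ^ 2 ≤ ρ + t ^ 2 * sq A v' := by
    intro t
    have := hom (y + t • v')
    rw [om_add_left, om_smul_left, h1, sq_add_smul, hb, hy] at this
    linarith
  have hz : om v' k = 0 := by
    by_contra hne
    obtain ⟨D, hD⟩ : ∃ D, D = sq A v' := ⟨_, rfl⟩
    have hD0 : 0 ≤ D := hD ▸ sq_nonneg' A v'
    have h2 := key (om v' k * ρ / (D + 1))
    rw [← hD] at h2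
    obtain ⟨a, ha⟩ : ∃ a, a = om v' k := ⟨_, rfl⟩
    rw [← ha] at h2 hne
    have h3 : 0 < a ^ 2 := by positivity
    have h4 : 0 < D + 1 := by linarith
    have e2 : ρ * (1 + a * ρ / (D + 1) * a) ^ 2 =
        ρ + 2 * ρ ^ 2 * a ^ 2 / (D + 1) + ρ ^ 3 * a ^ 4 / (D + 1) ^ 2 := by
      field_simp
      ring
    have e3 : ρ + (a * ρ / (D + 1)) ^ 2 * D = ρ + ρ ^ 2 * a ^ 2 / (D + 1) * (D / (D + 1)) := by
      field_simp
    rw [e2, e3] at h2
    have h5 : D / (D + 1) < 1 := by rw [div_lt_one h4]; linarith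
    have h6 : 0 < ρ ^ 2 * a ^ 2 / (D + 1) := by positivity
    have h7 : 0 < ρ ^ 3 * a ^ 4 / (D + 1) ^ 2 := by positivity
    have h8 : ρ ^ 2 * a ^ 2 / (D + 1) * (D / (D + 1)) < ρ ^ 2 * a ^ 2 / (D + 1) := by
      exact mul_lt_of_lt_one_right h6 h5
    have h9 : 2 * ρ ^ 2 * a ^ 2 / (D + 1) = 2 * (ρ ^ 2 * a ^ 2 / (D + 1)) := by ring
    linarith
  rw [hv', om_add_left, om_smul_left, h1] at hz
  field_simp at hz
  linarith

/-- The gauge along the rotated vectors is constant. -/
theorem gauge_const {A : V n ≃ₗ[ℝ] V n} {X : Set (V n)} (hX : SelfPolar X)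
    (hA : ∀ z ∈ YSet X, sq A z = 2) {m : ℝ} (hm0 : 0 < m) (hm2 : 0 < 2 - m) {x y : V n}
    (hx : x ∈ X) (hy : y ∈ X) (h1 : om x y = 1) (a1 : ∀ u, bil A u x = m * om u y)
    (a2 : ∀ u, bil A u y = -((2 - m) * om u x)) : m = 1 := by
  obtain ⟨r, hr⟩ : ∃ r, r = √(m / (2 - m)) := ⟨_, rfl⟩
  have hr0 : 0 < r := hr ▸ Real.sqrt_pos.2 (by positivity)
  have hr2 : r ^ 2 * (2 - m) = m := by
    rw [hr, Real.sq_sqrt (by positivity), div_mul_cancel₀ _ hm2.ne']
  obtain ⟨U, hU⟩ : ∃ U : ℝ → V n, U = fun t => Real.cos t • x + (Real.sin t * r) • y := ⟨_, rfl⟩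
  have hUt : ∀ t v, om (U t) v = Real.cos t * om x v + Real.sin t * r * om y v := by
    intro t v
    rw [hU]
    simp only
    rw [om_add_left, om_smul_left, om_smul_left]
  choose w hw hmax using fun t => exists_max hX (U t)
  have hxy : om y (-x) = 1 := by rw [om_neg_right, ← om_comm]; exact h1
  have hyx : om y x = -1 := by rw [om_comm, h1]
  have hnx := neg_mem' hX hx
  have hny := neg_mem' hX hy
  -- positivity and bound
  have b1 : ∀ t, Real.cos t ≤ om (U t) (w t) := fun t => by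
    have := hmax t y hy
    rw [hUt t y, h1, om_self] at this
    linarith
  have b2 : ∀ t, -Real.cos t ≤ om (U t) (w t) := fun t => by
    have := hmax t (-y) hny
    rw [hUt t (-y), om_neg_right, om_neg_right, h1, om_self] at this
    linarith
  have b3 : ∀ t, Real.sin t * r ≤ om (U t) (w t) := fun t => by
    have := hmax t (-x) hnx
    rw [hUt t (-x), om_neg_right, om_neg_right, om_self, hyx] at this
    linarith
  have b4 : ∀ t, -(Real.sin t * r) ≤ om (U t) (w t) := fun t => by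
    have := hmax t x hx
    rw [hUt t x, om_self, hyx] at this
    linarith
  have hpos : ∀ t, 0 < om (U t) (w t) := by
    intro t
    by_contra hcon
    push Not at hcon
    have c1 := b1 t
    have c2 := b2 t
    have c3 := b3 t
    have c4 := b4 t
    have e1 : Real.cos t = 0 := by linarith
    have e2 : Real.sin t * r = 0 := by linarith
    have e3 : Real.sin t = 0 := by
      rcases mul_eq_zero.1 e2 with h | h
      · exact h
      · exact absurd h hr0.ne'
    have := Real.sin_sq_add_cos_sq t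
    rw [e1, e3] at this
    norm_num at this
  have hbd : ∀ t, om (U t) (w t) ≤ 1 + r := by
    intro t
    rw [hUt]
    have p1 := le_one hX hx (hw t)
    have p2 := le_one hX hnx (hw t)
    have p3 := le_one hX hy (hw t)
    have p4 := le_one hX hny (hw t)
    rw [om_neg_left] at p2 p4
    have q1 : |Real.cos t| * |om x (w t)| ≤ 1 * 1 :=
      mul_le_mul (Real.abs_cos_le_one t) (abs_le.2 ⟨by linarith, p1⟩) (abs_nonneg _) zero_le_one
    have q2 : |Real.sin t| * |om y (w t)| ≤ 1 * 1 :=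
      mul_le_mul (Real.abs_sin_le_one t) (abs_le.2 ⟨by linarith, p3⟩) (abs_nonneg _) zero_le_one
    rw [← abs_mul] at q1 q2
    have q3 := (le_abs_self _).trans q1
    have q4 := (le_abs_self _).trans q2
    nlinarith
  -- the derivative vanishes
  have hder : ∀ t, -(Real.sin t) * om x (w t) + Real.cos t * r * om y (w t) = 0 := by
    intro t
    have s1 := scaled_pair hX (hmax t) (hpos t)
    have s2 : om ((om (U t) (w t))⁻¹ • U t) (w t) = 1 := by
      rw [om_smul_left, inv_mul_cancel₀ (hpos t).ne']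
    have s3 := (pair_ell hX hA s1 (hw t) s2).1
    rw [bil_smul_left] at s3
    have s4 : bil A (U t) (w t) = 0 := by
      rcases mul_eq_zero.1 s3 with h | h
      · exact absurd h (inv_ne_zero (hpos t).ne')
      · exact h
    rw [bil_comm, hU] at s4
    simp only at s4
    rw [bil_add_right, bil_smul_right, bil_smul_right, a1, a2, om_comm (w t) y,
      om_comm (w t) x] at s4
    have s5 : (2 - m) * r * (-(Real.sin t) * om x (w t) + Real.cos t * r * om y (w t)) = 0 := by
      have : (2 - m) * r * (-(Real.sin t) * om x (w t) + Real.cos t * r * om y (w t)) =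
          -(Real.sin t * r * ((2 - m) * om x (w t))) +
            Real.cos t * (r ^ 2 * (2 - m)) * om y (w t) := by ring
      rw [this, hr2]
      linarith
    rcases mul_eq_zero.1 s5 with h | h
    · exact absurd h (by positivity)
    · exact h
  have hcos : ∀ t d, Real.cos d * om (U t) (w t) ≤ om (U (t + d)) (w (t + d)) := by
    intro t d
    refine le_trans (le_of_eq ?_) (hmax (t + d) (w t) (hw t))
    rw [hUt, hUt, Real.cos_add, Real.sin_add]
    have := hder t
    linear_combination (-Real.sin d) * this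
  have hconst := const_of_sq (G := fun t => om (U t) (w t)) (fun t => by
    refine ⟨(1 + r) / 2, 1, one_pos, fun t' _ => ?_⟩
    have k1 := hcos t (t' - t)
    have k2 := hcos t' (t - t')
    rw [add_sub_cancel] at k1 k2
    have k3 : Real.cos (t - t') = Real.cos (t' - t) := by
      rw [← Real.cos_neg, neg_sub]
    rw [k3] at k2
    have k4 := Real.one_sub_sq_div_two_le_cos (x := t' - t)
    have k5 := hbd t
    have k6 := hbd t'
    have k7 := hpos t
    have k8 := hpos t'
    have k9 := Real.cos_le_one (t' - t)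
    rw [abs_le]
    constructor
    · have : (1 - Real.cos (t' - t)) * om (U t) (w t) ≤ ((t' - t) ^ 2 / 2) * (1 + r) :=
        mul_le_mul (by linarith) k5 k7.le (by positivity)
      linarith
    · have : (1 - Real.cos (t' - t)) * om (U t') (w t') ≤ ((t' - t) ^ 2 / 2) * (1 + r) :=
        mul_le_mul (by linarith) k6 k8.le (by positivity)
      linarith) 0 (Real.pi / 2)
  have g0 : om (U 0) (w 0) = 1 := by
    apply le_antisymm
    · rw [hUt, Real.cos_zero, Real.sin_zero]
      have := le_one hX hx (hw 0)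
      linarith
    · have := b1 0
      rwa [Real.cos_zero] at this
  have g1 : om (U (Real.pi / 2)) (w (Real.pi / 2)) = r := by
    apply le_antisymm
    · rw [hUt, Real.cos_pi_div_two, Real.sin_pi_div_two]
      have := le_one hX hy (hw (Real.pi / 2))
      nlinarith
    · have := b3 (Real.pi / 2)
      rw [Real.sin_pi_div_two] at this
      linarith
  rw [g0, g1] at hconst
  rw [← hconst] at hr2
  linarith

/-- If `Y(X)` lies on the ellipsoid `sq A = 2`, then `X` is the ellipsoid `sq A ≤ 1`. -/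
theorem ell_of_Y (hn : 1 ≤ n) {A : V n ≃ₗ[ℝ] V n} {X : Set (V n)} (hX : SelfPolar X)
    (hA : ∀ z ∈ YSet X, sq A z = 2) : X = A '' ball n := by
  obtain ⟨p, hp⟩ := front_nonempty hn hX
  obtain ⟨q, hq, hpq⟩ := partner hX hp
  have hpX := (front_mem hX hp).1
  have hpair := (pair_ell hX hA hpX hq hpq).2
  obtain ⟨x, hx, hmax⟩ := hX.compact.exists_isMaxOn ⟨p, hpX⟩ (sq_continuous A).continuousOn
  have hmax' : ∀ u ∈ X, sq A u ≤ sq A x := fun u hu => hmax hu
  obtain ⟨m, hm⟩ : ∃ m, m = sq A x := ⟨_, rfl⟩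
  rw [← hm] at hmax'
  have hm1 : 1 ≤ m := by
    have u1 := hmax' p hpX
    have u2 := hmax' q hq
    linarith
  have hm0 : 0 < m := by linarith
  obtain ⟨k, hk⟩ := exists_rep A x
  obtain ⟨y, hyk⟩ : ∃ y, y = m⁻¹ • k := ⟨_, rfl⟩
  have a1 : ∀ u, bil A u x = m * om u y := by
    intro u
    rw [hyk, om_smul_right, ← mul_assoc, mul_inv_cancel₀ hm0.ne', one_mul, hk]
  have hy : y ∈ X := by
    refine mem_of hX fun u hu => ?_
    have e1 := a1 u
    have e2 : bil A u x ≤ m := by
      have e3 := sq_add_smul A u x (-1)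
      have e4 := sq_nonneg' A (u + (-1 : ℝ) • x)
      have e5 := hmax' u hu
      linarith
    have e6 : m * om u y ≤ m * 1 := by linarith
    exact le_of_mul_le_mul_left e6 hm0
  have hxy : om x y = 1 := by
    have e1 := a1 x
    rw [bil_self, ← hm] at e1
    have : m * om x y = m * 1 := by linarith
    exact mul_left_cancel₀ hm0.ne' this
  have hsum := (pair_ell hX hA hx hy hxy).2
  rw [← hm] at hsum
  have hy2 : sq A y = 2 - m := by linarith
  have hm2 : 0 < 2 - m := by
    rw [← hy2]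
    refine lt_of_le_of_ne (sq_nonneg' A y) fun h0 => ?_
    have h1 := sq_zero_iff h0.symm
    have h2 := om_smul_right 0 x (0 : V n)
    rw [zero_smul, zero_mul] at h2
    rw [h1, h2] at hxy
    exact zero_ne_one hxy
  have hin : ∀ u, sq A u ≤ 2 - m → u ∈ X := fun u hu => ell_inside hX hA hmax' hm2 hu
  have hxn := neg_mem' hX hx
  have a2 : ∀ u, bil A u y = -((2 - m) * om u x) := by
    intro u
    have := touch (A := A) (k := -x) (y := y) hm2 hy2 (fun u hu => le_one hX (hin u hu) hxn)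
      (by rw [om_neg_right, ← om_comm]; exact hxy) u
    rw [this, om_neg_right]
    ring
  have hm' : m = 1 := gauge_const hX hA hm0 hm2 hx hy hxy a1 a2
  ext u
  rw [mem_ell]
  constructor
  · intro hu
    have := hmax' u hu
    linarith
  · intro hu
    exact hin u (by linarith)

/-- Two bodies are near each other if the products of the points of their sets `Y` are small. -/
theorem two_bodies (hn : 1 ≤ n) {X₁ X₂ : Set (V n)} (h1 : SelfPolar X₁) (h2 : SelfPolar X₂)
    {m : ℝ} (hm : ∀ z ∈ YSet X₁, ∀ w ∈ YSet X₂, om z w ≤ 2 * m) :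
    1 ≤ m ∧ ∀ x ∈ X₁, ∀ v ∈ X₂, om x v ≤ m + √(m ^ 2 - 1) := by
  obtain ⟨p, hp⟩ := front_nonempty hn h1
  obtain ⟨q, hq, hpq⟩ := partner h1 hp
  have hpX := (front_mem h1 hp).1
  obtain ⟨a, ha⟩ := h2.solid
  have haX := interior_subset ha
  obtain ⟨⟨x, v⟩, hxv, hmax⟩ := (h1.compact.prod h2.compact).exists_isMaxOn
    ⟨(p, a), hpX, haX⟩ om_continuous.continuousOn
  have hx : x ∈ X₁ := hxv.1
  have hv : v ∈ X₂ := hxv.2
  have hmax' : ∀ x' ∈ X₁, ∀ v' ∈ X₂, om x' v' ≤ om x v := fun x' hx' v' hv' =>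
    hmax (show (x', v') ∈ X₁ ×ˢ X₂ from ⟨hx', hv'⟩)
  obtain ⟨k, hk⟩ : ∃ k, k = om x v := ⟨_, rfl⟩
  rw [← hk] at hmax'
  have hk0 : 0 < k := by
    by_contra hcon
    push Not at hcon
    have hz : ∀ v' ∈ X₂, om p v' = 0 := by
      intro v' hv'
      have e1 := hmax' p hpX v' hv'
      have e2 := hmax' p hpX (-v') (neg_mem' h2 hv')
      rw [om_neg_right] at e2
      linarith
    have t1 : Tendsto (fun t : ℝ => a + t • q) (𝓝 0) (𝓝 (a + (0 : ℝ) • q)) :=
      ((continuous_const.add (continuous_id.smul continuous_const))).tendsto 0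
    rw [zero_smul, add_zero] at t1
    have t2 : ∀ᶠ t in 𝓝 (0 : ℝ), a + t • q ∈ X₂ := t1 (mem_interior_iff_mem_nhds.1 ha)
    have t3 : ∀ᶠ t in 𝓝[>] (0 : ℝ), a + t • q ∈ X₂ := t2.filter_mono nhdsWithin_le_nhds
    obtain ⟨t, ht1, ht2⟩ := (t3.and self_mem_nhdsWithin).exists
    have e3 := hz _ ht1
    rw [om_add_right, om_smul_right, hz a haX, hpq] at e3
    have : (0 : ℝ) < t := ht2
    linarith
  have hy : k⁻¹ • v ∈ X₁ := by
    refine mem_of h1 fun x' hx' => ?_
    rw [om_smul_right]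
    calc k⁻¹ * om x' v ≤ k⁻¹ * k := by gcongr; exact hmax' x' hx' v hv
      _ = 1 := inv_mul_cancel₀ hk0.ne'
  have hx2 : k⁻¹ • x ∈ X₂ := by
    refine mem_of h2 fun v' hv' => ?_
    rw [om_smul_right]
    have e1 := hmax' x hx (-v') (neg_mem' h2 hv')
    rw [om_neg_right, ← om_comm] at e1
    calc k⁻¹ * om v' x ≤ k⁻¹ * k := by gcongr
      _ = 1 := inv_mul_cancel₀ hk0.ne'
  have o1 : om x (k⁻¹ • v) = 1 := by
    rw [om_smul_right, ← hk, inv_mul_cancel₀ hk0.ne']
  have o2 : om (k⁻¹ • x) v = 1 := by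
    rw [om_smul_left, ← hk, inv_mul_cancel₀ hk0.ne']
  have s1 : Step X₁ (x + k⁻¹ • v) (k⁻¹ • v - x) :=
    ⟨x, front_left h1 hx hy o1, _, hy, o1, rfl, rfl⟩
  have s2 : Step X₁ (-(k⁻¹ • v - x)) (-(-(x + k⁻¹ • v))) := step_neg h1 (step_next h1 s1)
  have s3 : Step X₂ (k⁻¹ • x + v) (v - k⁻¹ • x) :=
    ⟨_, front_left h2 hx2 hv o2, v, hv, o2, rfl, rfl⟩
  have hM := hm _ (step_mem s2) _ (step_mem s3)
  have e1 : om (-(k⁻¹ • v - x)) (k⁻¹ • x + v) = k + k⁻¹ := by
    rw [om_neg_left, om_sub_left, om_add_right, om_add_right, om_smul_left, om_smul_left,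
      om_smul_right, om_smul_right, om_self, om_self, om_comm v x, ← hk]
    field_simp
    ring
  rw [e1] at hM
  have hq2 : k ^ 2 - 2 * m * k + 1 ≤ 0 := by
    have : (k + k⁻¹) * k ≤ 2 * m * k := by gcongr
    rw [add_mul, inv_mul_cancel₀ hk0.ne'] at this
    linarith
  have hm1 : 1 ≤ m := by
    by_contra hcon
    push Not at hcon
    nlinarith [sq_nonneg (k - 1)]
  refine ⟨hm1, fun x' hx' v' hv' => (hmax' x' hx' v' hv').trans ?_⟩
  have h4 : (k - m) ^ 2 ≤ m ^ 2 - 1 := by nlinarith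
  have h5 : k - m ≤ √(m ^ 2 - 1) := Real.le_sqrt_of_sq_le h4
  linarith

theorem two_bodies' (hn : 1 ≤ n) {X₁ X₂ : Set (V n)} (h1 : SelfPolar X₁) (h2 : SelfPolar X₂)
    {m : ℝ} (hm : ∀ z ∈ YSet X₁, ∀ w ∈ YSet X₂, om z w ≤ 2 * m) :
    1 ≤ m ∧ (∀ x ∈ X₁, (m + √(m ^ 2 - 1))⁻¹ • x ∈ X₂) ∧
      ∀ x ∈ X₂, (m + √(m ^ 2 - 1))⁻¹ • x ∈ X₁ := by
  obtain ⟨hm1, hb⟩ := two_bodies hn h1 h2 hm
  have hK : 0 < m + √(m ^ 2 - 1) := by
    have := Real.sqrt_nonneg (m ^ 2 - 1)
    linarith
  obtain ⟨K, hKd⟩ : ∃ K, K = m + √(m ^ 2 - 1) := ⟨_, rfl⟩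
  rw [← hKd] at hb hK ⊢
  refine ⟨hm1, fun x hx => mem_of h2 fun v hv => ?_, fun v hv => mem_of h1 fun x hx => ?_⟩
  · have e1 := hb x hx (-v) (neg_mem' h2 hv)
    rw [om_neg_right, ← om_comm] at e1
    rw [om_smul_right]
    calc K⁻¹ * om v x ≤ K⁻¹ * K := by gcongr
      _ = 1 := inv_mul_cancel₀ hK.ne'
  · have e1 := hb x hx v hv
    rw [om_smul_right]
    calc K⁻¹ * om x v ≤ K⁻¹ * K := by gcongr
      _ = 1 := inv_mul_cancel₀ hK.ne'

end

end Pool.Agent.Spo
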