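import Pool.Agent.Spo.Curve

/-!
# Two self-polar bodies whose outer billiard maps carry the same curves (MP_15a957_gt)
-/

set_option autoImplicit false

open Set Filter Topology

namespace Pool.Agent.Spo

section

variable {n : ℕ}

/-- If the two maps commute at `z`, they agree at `z`. -/
theorem local_comm {X₁ X₂ : Set (V n)} (h1 : SelfPolar X₁) (h2 : SelfPolar X₂) (c2 : C1 X₂)
    {z u v s : V n} (s1 : Step X₁ z u) (s4 : Step X₂ u s) (s2 : Step X₂ z v)
    (s3 : Step X₁ v s) : u = v := by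
  have s5 : Step X₁ (-s) v := by
    have := step_neg h1 (step_next h1 s3)
    rwa [neg_neg] at this
  have s6 : Step X₂ (-s) u := by
    have := step_neg h2 (step_next h2 s4)
    rwa [neg_neg] at this
  have o1 := step_om s1
  have o5 := step_om s5
  obtain ⟨a, ha, b, hb, hab, e1, e2⟩ := s2
  obtain ⟨a', ha', b', hb', hab', e3, e4⟩ := s6
  have haX := (front_mem h2 ha).1
  have haX' := (front_mem h2 ha').1
  have hsum : om a b' + om a' b = 2 := by
    rw [← e1, ← e4] at o1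
    rw [← e3, ← e2] at o5
    rw [om_add_left, om_sub_right, om_sub_right] at o1 o5
    have c1 := om_comm b a'
    have c2 := om_comm b' a
    have c3 := om_comm a a'
    have c4 := om_comm b b'
    linarith
  have g1 := le_one h2 haX hb'
  have g2 := le_one h2 haX' hb
  have hb2 : b = b' := c2 a ha b hb b' hb' hab (by linarith)
  have ha2 : -a = -a' := by
    refine c2 b (front_right h2 haX hb hab) (-a) (neg_mem' h2 haX) (-a') (neg_mem' h2 haX') ?_ ?_
    · rw [om_neg_right, ← om_comm]; exact hab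
    · rw [om_neg_right, ← om_comm, hb2]; exact hab'
  have ha3 : a = a' := neg_inj.1 ha2
  rw [← e4, ← e2, ← ha3, ← hb2]

/-- The decomposition of a point of `Y(X)` is unique when the boundary is `C^1`. -/
theorem dec_unique {X : Set (V n)} (hX : SelfPolar X) (cX : C1 X) {x y x' y' : V n}
    (hx : x ∈ X) (hy : y ∈ X) (h : om x y = 1) (hx' : x' ∈ X) (hy' : y' ∈ X) (h' : om x' y' = 1)
    (he : x + y = x' + y') : x = x' := by
  have g1 := le_one hX hx hy'
  have g2 := le_one hX hx' hy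
  have e1 : om (x + y) (x' + y') = 0 := by rw [he, om_self]
  have e2 : om (x - x') (y - y') = 2 - om x y' - om x' y := by
    rw [om_sub_left, om_sub_right, om_sub_right, h, h']
    ring
  have e3 : y - y' = -(x - x') := by
    have : y - y' = (x + y) - x - ((x' + y') - x') := by abel
    rw [this, he]
    abel
  rw [e3, om_neg_right, om_self, neg_zero] at e2
  have hb : y = y' := cX x (front_left hX hx hy h) y hy y' hy' h (by linarith)
  rw [hb] at he
  exact add_right_cancel he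

theorem step_unique {X : Set (V n)} (hX : SelfPolar X) (cX : C1 X) {z u v : V n}
    (s : Step X z u) (s' : Step X z v) : u = v := by
  obtain ⟨x, hx, y, hy, h, e1, e2⟩ := s
  obtain ⟨x', hx', y', hy', h', e3, e4⟩ := s'
  have hxx : x = x' := dec_unique hX cX (front_mem hX hx).1 hy h (front_mem hX hx').1 hy' h'
    (e1.trans e3.symm)
  have hyy : y = y' := by
    rw [hxx] at e1
    exact add_left_cancel (e1.trans e3.symm)
  rw [← e2, ← e4, hxx, hyy]

/-- On a curve carried by both maps they agree. -/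
theorem leaf_agree {X₁ X₂ : Set (V n)} (h1 : SelfPolar X₁) (h2 : SelfPolar X₂) (c2 : C1 X₂)
    {γ : ℝ → V n} (hγ : Positive γ) {τ₁ τ₂ : ℝ → ℝ} (k1 : CarriesBy X₁ γ τ₁)
    (k2 : CarriesBy X₂ γ τ₂) (s : ℝ) : γ (τ₁ s) = γ (τ₂ s) := by
  have hcomm : τ₂ (τ₁ s) = τ₁ (τ₂ s) := by
    apply (act_strict hγ).injective
    have a1 := act_const h1 hγ.1 k1 s (τ₂ s)
    have a2 := act_const h2 hγ.1 k2 s (τ₁ s)
    linarith
  have s1 := k1.2.2 s
  have s4 := k2.2.2 (τ₁ s)
  have s2 := k2.2.2 s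
  have s3 := k1.2.2 (τ₂ s)
  rw [hcomm] at s4
  exact local_comm h1 h2 c2 s1 s4 s2 s3

theorem leaf_common {X₁ X₂ : Set (V n)} (h1 : SelfPolar X₁) (h2 : SelfPolar X₂) (c2 : C1 X₂)
    {γ : ℝ → V n} (hγ : Positive γ) {τ₁ τ₂ : ℝ → ℝ} (k1 : CarriesBy X₁ γ τ₁)
    (k2 : CarriesBy X₂ γ τ₂) (s : ℝ) :
    ∃ x ∈ X₁ ∩ X₂, ∃ y ∈ X₁, om x y = 1 ∧ x + y = γ s := by
  have hag := leaf_agree h1 h2 c2 hγ k1 k2 s
  obtain ⟨x, hx, y, hy, h, e1, e2⟩ := k1.2.2 s
  obtain ⟨a, ha, b, hb, hab, e3, e4⟩ := k2.2.2 s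
  have hxa : x = a := by
    have e5 : (x + y) - (y - x) = (a + b) - (b - a) := by rw [e1, e2, e3, e4, hag]
    have e6 : (x + y) - (y - x) = (2 : ℝ) • x := by rw [two_smul]; abel
    have e7 : (a + b) - (b - a) = (2 : ℝ) • a := by rw [two_smul]; abel
    rw [e6, e7] at e5
    exact smul_right_injective _ (two_ne_zero) e5
  exact ⟨x, ⟨(front_mem h1 hx).1, hxa ▸ (front_mem h2 ha).1⟩, y, hy, h, e1⟩

theorem part_leaf {X₁ X₂ : Set (V n)} (h1 : SelfPolar X₁) (h2 : SelfPolar X₂) (c1 : C1 X₁)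
    (c2 : C1 X₂) (hd : YSet X₁ ⊆ closure {z | ∃ γ τ₁ τ₂, Positive γ ∧ CarriesBy X₁ γ τ₁ ∧
      CarriesBy X₂ γ τ₂ ∧ z ∈ range γ}) : X₁ = X₂ := by
  refine eq_of_front h1 h2 fun x hx => ?_
  obtain ⟨y, hy, hxy⟩ := partner h1 hx
  have hxX := (front_mem h1 hx).1
  -- the compact set of the common decompositions
  obtain ⟨K, hK⟩ : ∃ K : Set (V n × V n), K = ((X₁ ∩ X₂) ×ˢ X₁) ∩ {p | om p.1 p.2 = 1} := ⟨_, rfl⟩
  have hKc : IsCompact K := by
    rw [hK]
    refine ((h1.compact.inter_right h2.compact.isClosed).prod h1.compact).inter_right ?_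
    exact isClosed_eq om_continuous continuous_const
  have hIc : IsCompact ((fun p : V n × V n => p.1 + p.2) '' K) :=
    hKc.image (continuous_fst.add continuous_snd)
  have hsub : {z | ∃ γ τ₁ τ₂, Positive γ ∧ CarriesBy X₁ γ τ₁ ∧
      CarriesBy X₂ γ τ₂ ∧ z ∈ range γ} ⊆ (fun p : V n × V n => p.1 + p.2) '' K := by
    rintro z ⟨γ, τ₁, τ₂, hγ, k1, k2, s, rfl⟩
    obtain ⟨p, hp, q, hq, hpq, e⟩ := leaf_common h1 h2 c2 hγ k1 k2 s
    refine ⟨(p, q), ?_, e⟩
    rw [hK]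
    exact ⟨⟨hp, hq⟩, hpq⟩
  have hz : x + y ∈ (fun p : V n × V n => p.1 + p.2) '' K :=
    (closure_minimal hsub hIc.isClosed) (hd ⟨x, hx, y, hy, hxy, rfl⟩)
  obtain ⟨⟨p, q⟩, hpq, e⟩ := hz
  rw [hK] at hpq
  obtain ⟨⟨hp, hq⟩, h⟩ := hpq
  have hp' : p ∈ X₁ ∩ X₂ := hp
  have hxp : x = p := dec_unique h1 c1 hxX hy hxy hp'.1 hq h e.symm
  rw [hxp]
  exact hp'.2

end

end Pool.Agent.Spo
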