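import Pool.Agent.Spo.Defs

/-!
# Symplectically self-polar convex bodies (MP_15a957_gt): lemmas
-/

set_option autoImplicit false

open Set Filter Topology

namespace Pool.Agent.Spo

section

variable {n : ℕ}

theorem om_add_left (u u' v : V n) : om (u + u') v = om u v + om u' v := by
  unfold om
  rw [← Finset.sum_add_distrib]
  refine Finset.sum_congr rfl fun i _ => ?_
  simp only [Pi.add_apply]
  ring

theorem om_smul_left (t : ℝ) (u v : V n) : om (t • u) v = t * om u v := by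
  unfold om
  rw [Finset.mul_sum]
  refine Finset.sum_congr rfl fun i _ => ?_
  simp only [Pi.smul_apply, smul_eq_mul]
  ring

theorem om_comm (u v : V n) : om u v = -om v u := by
  unfold om
  rw [← Finset.sum_neg_distrib]
  refine Finset.sum_congr rfl fun i _ => ?_
  ring

theorem om_neg_left (u v : V n) : om (-u) v = -om u v := by
  have := om_smul_left (-1) u v
  rw [neg_one_smul] at this
  linarith

theorem om_neg_right (u v : V n) : om u (-v) = -om u v := by
  rw [om_comm, om_neg_left, om_comm u v]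

theorem om_add_right (u v v' : V n) : om u (v + v') = om u v + om u v' := by
  rw [om_comm, om_add_left, om_comm u v, om_comm u v']
  ring

theorem om_smul_right (t : ℝ) (u v : V n) : om u (t • v) = t * om u v := by
  rw [om_comm, om_smul_left, om_comm u v]
  ring

theorem om_sub_left (u u' v : V n) : om (u - u') v = om u v - om u' v := by
  rw [sub_eq_add_neg, om_add_left, om_neg_left]
  ring

theorem om_sub_right (u v v' : V n) : om u (v - v') = om u v - om u v' := by
  rw [sub_eq_add_neg, om_add_right, om_neg_right]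
  ring

theorem om_self (u : V n) : om u u = 0 := by
  have := om_comm u u
  linarith

theorem om_continuous : Continuous fun p : V n × V n => om p.1 p.2 := by
  unfold om
  fun_prop

theorem le_one {X : Set (V n)} (hX : SelfPolar X) {x y : V n} (hx : x ∈ X) (hy : y ∈ X) :
    om x y ≤ 1 := by
  have h : y ∈ {y | ∀ x ∈ X, om x y ≤ 1} := hX.polar ▸ hy
  exact h x hx

theorem mem_of {X : Set (V n)} (hX : SelfPolar X) {y : V n} (h : ∀ x ∈ X, om x y ≤ 1) :
    y ∈ X := by
  rw [hX.polar]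
  exact h

theorem neg_mem' {X : Set (V n)} (hX : SelfPolar X) {y : V n} (hy : y ∈ X) : -y ∈ X := by
  refine mem_of hX fun x hx => ?_
  rw [om_neg_right, ← om_comm]
  exact le_one hX hy hx

/-- An interior point can be pushed outwards. -/
theorem push {X : Set (V n)} {x : V n} (hx : x ∈ interior X) : ∃ t : ℝ, 1 < t ∧ t • x ∈ X := by
  have h1 : Tendsto (fun t : ℝ => t • x) (𝓝 1) (𝓝 ((1 : ℝ) • x)) :=
    (continuous_id.smul continuous_const).tendsto 1
  rw [one_smul] at h1
  have h2 : ∀ᶠ t in 𝓝 (1 : ℝ), t • x ∈ X :=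
    h1 (mem_interior_iff_mem_nhds.1 hx)
  have h3 : ∀ᶠ t in 𝓝[>] (1 : ℝ), t • x ∈ X := h2.filter_mono nhdsWithin_le_nhds
  obtain ⟨t, ht1, ht2⟩ := (h3.and self_mem_nhdsWithin).exists
  exact ⟨t, ht2, ht1⟩

theorem front {X : Set (V n)} (hX : SelfPolar X) {x : V n} (hx : x ∈ X)
    (h : x ∉ interior X) : x ∈ frontier X := by
  rw [hX.compact.isClosed.frontier_eq]
  exact ⟨hx, h⟩

theorem front_mem {X : Set (V n)} (hX : SelfPolar X) {x : V n} (hx : x ∈ frontier X) :
    x ∈ X ∧ x ∉ interior X := by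
  rw [hX.compact.isClosed.frontier_eq] at hx
  exact hx

/-- Points of `X` with `ω(x,y) = 1` are boundary points. -/
theorem front_left {X : Set (V n)} (hX : SelfPolar X) {x y : V n} (hx : x ∈ X) (hy : y ∈ X)
    (h : om x y = 1) : x ∈ frontier X := by
  refine front hX hx fun hi => ?_
  obtain ⟨t, ht, htx⟩ := push hi
  have := le_one hX htx hy
  rw [om_smul_left, h, mul_one] at this
  linarith

theorem front_right {X : Set (V n)} (hX : SelfPolar X) {x y : V n} (hx : x ∈ X) (hy : y ∈ X)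
    (h : om x y = 1) : y ∈ frontier X := by
  refine front_left hX hy (neg_mem' hX hx) ?_
  rw [om_neg_right, ← om_comm]
  exact h

/-- Every boundary point has a partner. -/
theorem partner {X : Set (V n)} (hX : SelfPolar X) {x : V n} (hx : x ∈ frontier X) :
    ∃ y ∈ X, om x y = 1 := by
  obtain ⟨hxX, hxi⟩ := front_mem hX hx
  by_contra hcon
  push Not at hcon
  have hlt : ∀ y ∈ X, om x y < 1 := fun y hy => lt_of_le_of_ne (le_one hX hxX hy) (hcon y hy)
  apply hxi
  rw [mem_interior_iff_mem_nhds]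
  have h1 : ∀ y ∈ X, ∀ᶠ p in 𝓝 x ×ˢ 𝓝 y, om p.1 p.2 < 1 := by
    intro y hy
    have h2 : Tendsto (fun p : V n × V n => om p.1 p.2) (𝓝 (x, y)) (𝓝 (om x y)) :=
      om_continuous.tendsto (x, y)
    rw [nhds_prod_eq] at h2
    exact h2 (Iio_mem_nhds (hlt y hy))
  have h3 : ∀ᶠ x' in 𝓝 x, ∀ y ∈ X, om x' y < 1 := by
    refine hX.compact.eventually_forall_of_forall_eventually fun y hy => ?_
    have h4 := h1 y hy
    rw [← nhds_prod_eq] at h4
    exact h4
  filter_upwards [h3] with x' hx'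
  refine mem_of hX fun y hy => ?_
  have h5 := hx' (-y) (neg_mem' hX hy)
  rw [om_neg_right, ← om_comm] at h5
  exact h5.le

/-! ### Steps -/

theorem step_next {X : Set (V n)} (hX : SelfPolar X) {z z' : V n} (h : Step X z z') :
    Step X z' (-z) := by
  obtain ⟨x, hx, y, hy, h1, rfl, rfl⟩ := h
  have hxX := (front_mem hX hx).1
  refine ⟨y, front_right hX hxX hy h1, -x, neg_mem' hX hxX, ?_, by abel, by abel⟩
  rw [om_neg_right, ← om_comm]
  exact h1

theorem step_neg {X : Set (V n)} (hX : SelfPolar X) {z z' : V n} (h : Step X z z') :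
    Step X (-z) (-z') := by
  obtain ⟨x, hx, y, hy, h1, rfl, rfl⟩ := h
  have hxX := (front_mem hX hx).1
  have h2 : om (-x) (-y) = 1 := by rw [om_neg_left, om_neg_right, neg_neg]; exact h1
  exact ⟨-x, front_left hX (neg_mem' hX hxX) (neg_mem' hX hy) h2, -y, neg_mem' hX hy, h2,
    by abel, by abel⟩

theorem step_mem {X : Set (V n)} {z z' : V n} (h : Step X z z') : z ∈ YSet X := by
  obtain ⟨x, hx, y, hy, h1, h2, -⟩ := h
  exact ⟨x, hx, y, hy, h1, h2⟩

theorem step_ex {X : Set (V n)} {z : V n} (h : z ∈ YSet X) : ∃ z', Step X z z' := by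
  obtain ⟨x, hx, y, hy, h1, h2⟩ := h
  exact ⟨y - x, x, hx, y, hy, h1, h2, rfl⟩

theorem step_om {X : Set (V n)} {z z' : V n} (h : Step X z z') : om z z' = 2 := by
  obtain ⟨x, -, y, -, h1, rfl, rfl⟩ := h
  rw [om_add_left, om_sub_right, om_sub_right, om_self, om_self, om_comm y x, h1]
  norm_num

/-! ### The norm of a self-polar ellipsoid -/

theorem sq_nonneg' (A : V n ≃ₗ[ℝ] V n) (x : V n) : 0 ≤ sq A x :=
  Finset.sum_nonneg fun _ _ => sq_nonneg _

theorem sq_smul (A : V n ≃ₗ[ℝ] V n) (t : ℝ) (x : V n) : sq A (t • x) = t ^ 2 * sq A x := by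
  unfold sq
  rw [map_smul, Finset.mul_sum]
  refine Finset.sum_congr rfl fun i _ => ?_
  simp only [Pi.smul_apply, smul_eq_mul]
  ring

theorem sq_continuous (A : V n ≃ₗ[ℝ] V n) : Continuous (sq A) := by
  have h : Continuous A.symm := LinearMap.continuous_of_finiteDimensional A.symm.toLinearMap
  unfold sq
  exact continuous_finsetSum _ fun j _ => ((continuous_apply j).comp h).pow 2

theorem sq_par (A : V n ≃ₗ[ℝ] V n) (x y : V n) :
    sq A (x + y) + sq A (y - x) = 2 * (sq A x + sq A y) := by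
  unfold sq
  rw [← Finset.sum_add_distrib, ← Finset.sum_add_distrib, Finset.mul_sum]
  refine Finset.sum_congr rfl fun i _ => ?_
  rw [map_add, map_sub]
  simp only [Pi.add_apply, Pi.sub_apply]
  ring

/-- The bilinear form of `sq A`. -/
def bil (A : V n ≃ₗ[ℝ] V n) (x y : V n) : ℝ := ∑ j, A.symm x j * A.symm y j

theorem sq_add_smul (A : V n ≃ₗ[ℝ] V n) (x y : V n) (t : ℝ) :
    sq A (x + t • y) = sq A x + 2 * t * bil A x y + t ^ 2 * sq A y := by
  unfold sq bil
  rw [Finset.mul_sum, Finset.mul_sum, ← Finset.sum_add_distrib, ← Finset.sum_add_distrib]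
  refine Finset.sum_congr rfl fun i _ => ?_
  rw [map_add, map_smul]
  simp only [Pi.add_apply, Pi.smul_apply, smul_eq_mul]
  ring

theorem mem_ell (A : V n ≃ₗ[ℝ] V n) (x : V n) : x ∈ A '' ball n ↔ sq A x ≤ 1 := by
  constructor
  · rintro ⟨y, hy, rfl⟩
    unfold sq
    rw [A.symm_apply_apply]
    exact hy
  · intro h
    exact ⟨A.symm x, h, A.apply_symm_apply x⟩

theorem om_sq_le {A : V n ≃ₗ[ℝ] V n} (hA : SelfPolar (A '' ball n)) (u v : V n) :
    om u v ≤ √(sq A u) * √(sq A v) := by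
  have key : ∀ u : V n, sq A u = 0 → u = 0 := by
    intro u hu
    unfold sq at hu
    rw [Finset.sum_eq_zero_iff_of_nonneg fun _ _ => sq_nonneg _] at hu
    have h1 : A.symm u = 0 := by
      funext j
      exact pow_eq_zero_iff (two_ne_zero) |>.1 (hu j (Finset.mem_univ j))
    exact (LinearEquiv.map_eq_zero_iff A.symm).1 h1
  rcases (sq_nonneg' A u).eq_or_lt with h0 | hu
  · rw [key u h0.symm]
    have := om_smul_left 0 (0 : V n) v
    rw [zero_smul, zero_mul] at this
    rw [this]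
    positivity
  rcases (sq_nonneg' A v).eq_or_lt with h0 | hv
  · rw [key v h0.symm]
    have := om_smul_right 0 u (0 : V n)
    rw [zero_smul, zero_mul] at this
    rw [this]
    positivity
  have su : 0 < √(sq A u) := Real.sqrt_pos.2 hu
  have sv : 0 < √(sq A v) := Real.sqrt_pos.2 hv
  have hu' : (√(sq A u))⁻¹ • u ∈ A '' ball n := by
    rw [mem_ell, sq_smul, inv_pow, Real.sq_sqrt hu.le, inv_mul_cancel₀ hu.ne']
  have hv' : (√(sq A v))⁻¹ • v ∈ A '' ball n := by
    rw [mem_ell, sq_smul, inv_pow, Real.sq_sqrt hv.le, inv_mul_cancel₀ hv.ne']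
  have h1 := le_one hA hu' hv'
  rw [om_smul_left, om_smul_right] at h1
  have h2 : om u v = √(sq A u) * √(sq A v) *
      ((√(sq A u))⁻¹ * ((√(sq A v))⁻¹ * om u v)) := by
    field_simp
  rw [h2]
  exact mul_le_of_le_one_right (by positivity) h1

/-- The boundary is not empty. -/
theorem front_nonempty (hn : 1 ≤ n) {X : Set (V n)} (hX : SelfPolar X) :
    (frontier X).Nonempty := by
  rw [nonempty_frontier_iff]
  refine ⟨hX.solid.mono interior_subset, fun hu => ?_⟩
  let i0 : Fin n := ⟨0, hn⟩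
  let u : V n := Pi.single (Sum.inl i0) 2
  let v : V n := Pi.single (Sum.inr i0) 1
  have h1 : om u v = 2 := by
    unfold om
    rw [Finset.sum_eq_single i0]
    · simp [u, v]
    · intro b _ hb
      simp [u, v, hb]
    · intro h
      exact absurd (Finset.mem_univ i0) h
  have h2 := le_one hX (x := u) (y := v) (hu ▸ mem_univ u) (hu ▸ mem_univ v)
  rw [h1] at h2
  norm_num at h2

theorem two_le {a b m : ℝ} (ha : 0 ≤ a) (hb : 0 ≤ b) (h1 : 1 ≤ √a * √b)
    (h2 : a + b ≤ 2 * m) : 1 ≤ m ∧ a ≤ m + √(m ^ 2 - 1) := by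
  have h3 : 1 ≤ a * b := by
    have : (1 : ℝ) ≤ (√a * √b) ^ 2 := one_le_pow₀ h1
    rw [mul_pow, Real.sq_sqrt ha, Real.sq_sqrt hb] at this
    exact this
  have hm : 1 ≤ m := by
    nlinarith [sq_nonneg (a - b), sq_nonneg (a + b), sq_nonneg (m - 1), sq_nonneg (m + 1)]
  refine ⟨hm, ?_⟩
  have h4 : (a - m) ^ 2 ≤ m ^ 2 - 1 := by nlinarith
  have h5 : a - m ≤ √(m ^ 2 - 1) := Real.le_sqrt_of_sq_le h4
  linarith

theorem pair_bound {A : V n ≃ₗ[ℝ] V n} (hA : SelfPolar (A '' ball n)) {X : Set (V n)}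
    (hX : SelfPolar X) {m : ℝ} (hm : ∀ z ∈ YSet X, sq A z ≤ 2 * m) {x : V n}
    (hx : x ∈ frontier X) : 1 ≤ m ∧ sq A x ≤ m + √(m ^ 2 - 1) := by
  obtain ⟨y, hy, h1⟩ := partner hX hx
  have hs : Step X (x + y) (y - x) := ⟨x, hx, y, hy, h1, rfl, rfl⟩
  have a1 := hm _ (step_mem hs)
  have a2 := hm _ (step_mem (step_next hX hs))
  have a3 := sq_par A x y
  have a4 := om_sq_le hA x y
  rw [h1] at a4
  exact two_le (sq_nonneg' A x) (sq_nonneg' A y) a4 (by linarith)

theorem part_one (hn : 1 ≤ n) {A : V n ≃ₗ[ℝ] V n} (hA : SelfPolar (A '' ball n))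
    {X : Set (V n)} (hX : SelfPolar X) {m : ℝ} (hm : ∀ z ∈ YSet X, sq A z ≤ 2 * m) :
    1 ≤ m ∧ (∀ x ∈ X, sq A x ≤ m + √(m ^ 2 - 1)) ∧
      ∀ x, sq A x * (m + √(m ^ 2 - 1)) ≤ 1 → x ∈ X := by
  obtain ⟨x1, hx1⟩ := front_nonempty hn hX
  have hm1 := (pair_bound hA hX hm hx1).1
  have hk : 0 < m + √(m ^ 2 - 1) := by
    have := Real.sqrt_nonneg (m ^ 2 - 1)
    linarith
  have hup : ∀ x ∈ X, sq A x ≤ m + √(m ^ 2 - 1) := by
    intro x hx
    obtain ⟨x0, hx0, hmax⟩ := hX.compact.exists_isMaxOn ⟨x, hx⟩ (sq_continuous A).continuousOn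
    have h1 : sq A x ≤ sq A x0 := hmax hx
    rcases (sq_nonneg' A x0).eq_or_lt with h0 | h0
    · rw [← h0] at h1
      exact h1.trans hk.le
    · refine h1.trans (pair_bound hA hX hm (front hX hx0 fun hi => ?_)).2
      obtain ⟨t, ht, htx⟩ := push hi
      have h2 : sq A (t • x0) ≤ sq A x0 := hmax htx
      rw [sq_smul] at h2
      have h3 : 1 < t ^ 2 := one_lt_pow₀ ht two_ne_zero
      nlinarith
  refine ⟨hm1, hup, fun x hx => mem_of hX fun y hy => ?_⟩
  refine (om_sq_le hA y x).trans ?_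
  rw [← Real.sqrt_mul (sq_nonneg' A y)]
  refine Real.sqrt_le_one.2 ?_
  have h1 := hup y hy
  have h2 := sq_nonneg' A x
  nlinarith

theorem ell_Y {A : V n ≃ₗ[ℝ] V n} (hA : SelfPolar (A '' ball n)) :
    ∀ z ∈ YSet (A '' ball n), sq A z ≤ 2 * 1 := by
  rintro z ⟨x, hx, y, hy, h1, rfl⟩
  have hx1 : sq A x ≤ 1 := (mem_ell A x).1 (front_mem hA hx).1
  have hy1 : sq A y ≤ 1 := (mem_ell A y).1 hy
  have hy0 := sq_nonneg' A y
  have key : ∀ t : ℝ, 1 ≤ sq A (x + t • y) := by
    intro t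
    have h2 := om_sq_le hA (x + t • y) y
    rw [om_add_left, om_smul_left, om_self, h1, mul_zero, add_zero] at h2
    have h3 : √(sq A y) ≤ 1 := Real.sqrt_le_one.2 hy1
    have h4 : 1 ≤ √(sq A (x + t • y)) := by
      have := Real.sqrt_nonneg (sq A (x + t • y))
      nlinarith
    exact Real.one_le_sqrt.1 h4
  have hb : bil A x y = 0 := by
    have h5 := key (-bil A x y)
    rw [sq_add_smul] at h5
    have : bil A x y ^ 2 ≤ 0 := by nlinarith [sq_nonneg (bil A x y)]
    exact pow_eq_zero_iff two_ne_zero |>.1 (le_antisymm this (sq_nonneg _))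
  have h6 := sq_add_smul A x y 1
  rw [one_smul, hb] at h6
  rw [h6]
  linarith

/-! ### Commuting maps -/

theorem eq_of_front {X₁ X₂ : Set (V n)} (h1 : SelfPolar X₁) (h2 : SelfPolar X₂)
    (hf : frontier X₁ ⊆ X₂) : X₁ = X₂ := by
  have hsub : X₁ ⊆ X₂ := by
    intro x hx
    refine mem_of h2 fun y hy => ?_
    have hc : Continuous fun x : V n => om y x :=
      om_continuous.comp (continuous_const.prodMk continuous_id)
    obtain ⟨x0, hx0, hmax⟩ := h1.compact.exists_isMaxOn ⟨x, hx⟩ hc.continuousOn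
    have h3 : om y x ≤ om y x0 := hmax hx
    rcases le_or_gt (om y x0) 0 with h0 | h0
    · linarith
    · refine h3.trans (le_one h2 hy (hf (front h1 hx0 fun hi => ?_)))
      obtain ⟨t, ht, htx⟩ := push hi
      have h4 : om y (t • x0) ≤ om y x0 := hmax htx
      rw [om_smul_right] at h4
      nlinarith
  refine hsub.antisymm fun y hy => ?_
  exact mem_of h1 fun x hx => le_one h2 (hsub hx) hy

theorem part_three {X₁ X₂ : Set (V n)} (h1 : SelfPolar X₁) (h2 : SelfPolar X₂)
    (c2 : C1 X₂) (hY : YSet X₁ = YSet X₂)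
    (hc : ∀ z z₁ z₁₂ z₂ z₂₁, Step X₁ z z₁ → Step X₂ z₁ z₁₂ → Step X₂ z z₂ → Step X₁ z₂ z₂₁ →
      z₁₂ = z₂₁) : X₁ = X₂ := by
  refine eq_of_front h1 h2 fun x hx => ?_
  obtain ⟨y, hy, hxy⟩ := partner h1 hx
  have s1 : Step X₁ (x + y) (y - x) := ⟨x, hx, y, hy, hxy, rfl, rfl⟩
  -- the four points
  obtain ⟨v, s2⟩ := step_ex (hY ▸ step_mem s1 : x + y ∈ YSet X₂)
  obtain ⟨s, s3⟩ := step_ex (hY.symm ▸ step_mem (step_next h2 s2) : v ∈ YSet X₁)
  obtain ⟨s', s4⟩ := step_ex (hY ▸ step_mem (step_next h1 s1) : y - x ∈ YSet X₂)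
  have hs : s' = s := hc _ _ _ _ _ s1 s4 s2 s3
  subst hs
  have s5 : Step X₁ (-s') v := by
    have := step_neg h1 (step_next h1 s3)
    rwa [neg_neg] at this
  have s6 : Step X₂ (-s') (y - x) := by
    have := step_neg h2 (step_next h2 s4)
    rwa [neg_neg] at this
  have o1 := step_om s1
  have o2 := step_om s2
  have o5 := step_om s5
  have o6 := step_om s6
  obtain ⟨a, ha, b, hb, hab, e1, e2⟩ := s2
  obtain ⟨a', ha', b', hb', hab', e3, e4⟩ := s6
  have haX := (front_mem h2 ha).1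
  have haX' := (front_mem h2 ha').1
  -- `ω(a,b') + ω(a',b) = 2`
  have hsum : om a b' + om a' b = 2 := by
    rw [← e1, ← e4] at o1
    rw [← e3, ← e2] at o5
    rw [om_add_left, om_sub_right, om_sub_right] at o1 o5
    have c1 := om_comm b a'
    have c2 := om_comm b' a
    have c3 := om_comm a a'
    have c4 := om_comm b b'
    linarith
  have g1 := le_one h2 haX hb'
  have g2 := le_one h2 haX' hb
  have hb2 : b = b' := c2 a ha b hb b' hb' hab (by linarith)
  have ha2 : -a = -a' := by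
    refine c2 b (front_right h2 haX hb hab) (-a) (neg_mem' h2 haX) (-a') (neg_mem' h2 haX') ?_ ?_
    · rw [om_neg_right, ← om_comm]; exact hab
    · rw [om_neg_right, ← om_comm, hb2]; exact hab'
  have ha3 : a = a' := neg_inj.1 ha2
  have hv : y - x = v := by rw [← e4, ← e2, ← ha3, ← hb2]
  -- `x = a`
  have hx2 : (2 : ℝ) • x = (2 : ℝ) • a := by
    have e5 : a + b = x + y := e1
    have e6 : b - a = y - x := by rw [hv]; exact e2
    rw [two_smul, two_smul]
    have : (a + b) - (b - a) = (x + y) - (y - x) := by rw [e5, e6]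
    have e7 : (a + b) - (b - a) = a + a := by abel
    have e8 : (x + y) - (y - x) = x + x := by abel
    rw [← e7, ← e8, this]
  have hxa : x = a := smul_right_injective _ (two_ne_zero) hx2
  rw [hxa]
  exact haX

end

end Pool.Agent.Spo
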